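import Mathlib

/-!
# The number of distinct ratios `a_j / (a_i, a_j)`

The exponent is `1 / 2`. Upper bound: if `T` is a finite set of integer vectors, all of whose
coordinatewise differences are smaller than `M`, let `T'` be the set of the vectors
`(x + s M, y - s M)`, `x, y ∈ T`, `0 ≤ s < m`. A difference with `s ≠ s'` has all coordinates of one
half positive and all coordinates of the other half negative, so that its positive part
reveals only one half. Starting with `{0, ..., m - 1}` this gives sets of `m ^ (2 ^ (L + 1) - 1)`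
vectors with `O(m ^ (2 ^ L))` different positive parts of differences.
-/

set_option autoImplicit false

open Filter Topology

namespace Pool.Agent.Results.MP_f9e5d9_nt.RatioExponent

/-- the set of the quotients `b / (a, b)`, `a, b ∈ A` -/
def ratios (A : Finset ℕ) : Finset ℕ := (A ×ˢ A).image fun p => p.2 / Nat.gcd p.1 p.2

/-- `h(n)`: the least number of different quotients `b / (a, b)` of a set of `n` positive
integers -/
noncomputable def h (n : ℕ) : ℕ :=
  sInf {m | ∃ A : Finset ℕ, (∀ a ∈ A, 0 < a) ∧ A.card = n ∧ (ratios A).card = m}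

/-! ### The lower bound -/

lemma card_le_sq (A : Finset ℕ) (hA : ∀ a ∈ A, 0 < a) : A.card ≤ (ratios A).card ^ 2 := by
  rcases A.eq_empty_or_nonempty with rfl | ⟨a, ha⟩
  · simp
  · have hinj : Set.InjOn (fun b : ℕ => (b / Nat.gcd a b, a / Nat.gcd b a)) (A : Set ℕ) := by
      intro b hb c hc hbc
      simp only [Prod.mk.injEq] at hbc
      obtain ⟨h1, h2⟩ := hbc
      have hb0 := hA b hb
      have hc0 := hA c hc
      have ha0 := hA a ha
      rw [Nat.gcd_comm b a, Nat.gcd_comm c a] at h2
      have hgb : 0 < Nat.gcd a b := Nat.gcd_pos_of_pos_left _ ha0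
      have hgc : 0 < Nat.gcd a c := Nat.gcd_pos_of_pos_left _ ha0
      have e1 : b = b / Nat.gcd a b * Nat.gcd a b := (Nat.div_mul_cancel (Nat.gcd_dvd_right a b)).symm
      have e2 : c = c / Nat.gcd a c * Nat.gcd a c := (Nat.div_mul_cancel (Nat.gcd_dvd_right a c)).symm
      have e3 : a = a / Nat.gcd a b * Nat.gcd a b := (Nat.div_mul_cancel (Nat.gcd_dvd_left a b)).symm
      have e4 : a = a / Nat.gcd a c * Nat.gcd a c := (Nat.div_mul_cancel (Nat.gcd_dvd_left a c)).symm
      have hpos : 0 < a / Nat.gcd a b := Nat.div_pos (Nat.le_of_dvd ha0 (Nat.gcd_dvd_left a b)) hgb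
      have hg : Nat.gcd a b = Nat.gcd a c := by
        have : a / Nat.gcd a b * Nat.gcd a b = a / Nat.gcd a b * Nat.gcd a c := by
          rw [← e3]
          conv_lhs => rw [e4]
          rw [h2]
        exact Nat.eq_of_mul_eq_mul_left hpos this
      rw [e1, e2, h1, hg]
    calc A.card = (A.image (fun b : ℕ => (b / Nat.gcd a b, a / Nat.gcd b a))).card :=
          (Finset.card_image_of_injOn hinj).symm
      _ ≤ (ratios A ×ˢ ratios A).card := by
          apply Finset.card_le_card
          intro p hp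
          obtain ⟨b, hb, rfl⟩ := Finset.mem_image.1 hp
          refine Finset.mem_product.2 ⟨?_, ?_⟩
          · exact Finset.mem_image.2 ⟨(a, b), Finset.mem_product.2 ⟨ha, hb⟩, rfl⟩
          · exact Finset.mem_image.2 ⟨(b, a), Finset.mem_product.2 ⟨hb, ha⟩, rfl⟩
      _ = (ratios A).card ^ 2 := by rw [Finset.card_product, sq]

lemma h_mem (n : ℕ) : ∃ A : Finset ℕ, (∀ a ∈ A, 0 < a) ∧ A.card = n ∧ (ratios A).card = h n := by
  have : (sInf {m | ∃ A : Finset ℕ, (∀ a ∈ A, 0 < a) ∧ A.card = n ∧ (ratios A).card = m}) ∈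
      {m | ∃ A : Finset ℕ, (∀ a ∈ A, 0 < a) ∧ A.card = n ∧ (ratios A).card = m} := by
    apply Nat.sInf_mem
    refine ⟨_, Finset.Icc 1 n, fun a ha => (Finset.mem_Icc.1 ha).1, by simp, rfl⟩
  exact this

lemma le_h_sq (n : ℕ) : n ≤ h n ^ 2 := by
  obtain ⟨A, hA, hn, hr⟩ := h_mem n
  rw [← hr, ← hn]
  exact card_le_sq A hA

lemma h_le {n : ℕ} {A : Finset ℕ} (hA : ∀ a ∈ A, 0 < a) (hn : n ≤ A.card) :
    h n ≤ (ratios A).card := by
  obtain ⟨B, hBA, hB⟩ := Finset.exists_subset_card_eq hn
  calc h n ≤ (ratios B).card := Nat.sInf_le ⟨B, fun a ha => hA a (hBA ha), hB, rfl⟩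
    _ ≤ (ratios A).card :=
        Finset.card_le_card (Finset.image_subset_image (Finset.product_subset_product hBA hBA))

/-! ### Sets of vectors -/

open Classical in
/-- differences -/
noncomputable def D {ι : Type} (T : Finset (ι → ℤ)) : Finset (ι → ℤ) :=
  (T ×ˢ T).image fun p => p.1 - p.2

open Classical in
/-- positive parts of differences -/
noncomputable def P {ι : Type} (T : Finset (ι → ℤ)) : Finset (ι → ℕ) :=
  (T ×ˢ T).image fun p i => (p.1 i - p.2 i).toNat

lemma mem_D {ι : Type} {T : Finset (ι → ℤ)} {d : ι → ℤ} :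
    d ∈ D T ↔ ∃ x ∈ T, ∃ y ∈ T, x - y = d := by
  classical
  unfold D
  simp only [Finset.mem_image, Finset.mem_product, Prod.exists]
  constructor
  · rintro ⟨x, y, ⟨hx, hy⟩, h⟩
    exact ⟨x, hx, y, hy, h⟩
  · rintro ⟨x, hx, y, hy, h⟩
    exact ⟨x, y, ⟨hx, hy⟩, h⟩

lemma mem_P {ι : Type} {T : Finset (ι → ℤ)} {d : ι → ℕ} :
    d ∈ P T ↔ ∃ x ∈ T, ∃ y ∈ T, (fun i => (x i - y i).toNat) = d := by
  classical
  unfold P
  simp only [Finset.mem_image, Finset.mem_product, Prod.exists]
  constructor
  · rintro ⟨x, y, ⟨hx, hy⟩, h⟩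
    exact ⟨x, hx, y, hy, h⟩
  · rintro ⟨x, hx, y, hy, h⟩
    exact ⟨x, y, ⟨hx, hy⟩, h⟩

lemma exists_bound {ι : Type} [Fintype ι] (T : Finset (ι → ℤ)) :
    ∃ M : ℤ, 0 < M ∧ ∀ x ∈ T, ∀ y ∈ T, ∀ i, |x i - y i| < M := by
  obtain ⟨B, hB⟩ : ∃ B : ℤ, ∀ x ∈ T, ∀ i, |x i| ≤ B := by
    refine ⟨∑ x ∈ T, ∑ i, |x i|, fun x hx i => ?_⟩
    have h1 : |x i| ≤ ∑ i, |x i| :=
      Finset.single_le_sum (f := fun i => |x i|) (fun _ _ => abs_nonneg _) (Finset.mem_univ i)
    have h2 : ∑ i, |x i| ≤ ∑ x ∈ T, ∑ i, |x i| :=
      Finset.single_le_sum (f := fun x : ι → ℤ => ∑ i, |x i|)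
        (fun _ _ => Finset.sum_nonneg fun _ _ => abs_nonneg _) hx
    exact h1.trans h2
  refine ⟨2 * |B| + 1, by positivity, fun x hx y hy i => ?_⟩
  have h1 := hB x hx i
  have h2 := hB y hy i
  have h3 := abs_sub (x i) (y i)
  have h4 := le_abs_self B
  linarith

/-- the recursive construction -/
lemma core (L : ℕ) : ∃ (ι : Type) (_ : Fintype ι) (_ : Nonempty ι) (K t : ℕ),
    t + 1 = 2 * 2 ^ L ∧ ∀ m : ℕ, ∃ T : Finset (ι → ℤ), T.card = m ^ t ∧
      (D T).card ≤ K * m ^ t ∧ (P T).card ≤ K * m ^ (2 ^ L) := by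
  classical
  induction L with
  | zero =>
    refine ⟨Unit, inferInstance, inferInstance, 2, 1, rfl, fun m => ?_⟩
    refine ⟨(Finset.range m).image (fun (s : ℕ) (_ : Unit) => (s : ℤ)), ?_, ?_, ?_⟩
    · rw [Finset.card_image_of_injective, Finset.card_range, pow_one]
      intro a b hab
      have := congrFun hab ()
      simpa using this
    · calc _ ≤ ((Finset.range (2 * m)).image (fun (s : ℕ) (_ : Unit) => (s : ℤ) - m)).card := by
            apply Finset.card_le_card
            intro d hd
            obtain ⟨x, hx, y, hy, rfl⟩ := mem_D.1 hd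
            obtain ⟨a, ha, rfl⟩ := Finset.mem_image.1 hx
            obtain ⟨b, hb, rfl⟩ := Finset.mem_image.1 hy
            rw [Finset.mem_range] at ha hb
            refine Finset.mem_image.2 ⟨a + m - b, Finset.mem_range.2 (by omega), ?_⟩
            funext i
            simp only [Pi.sub_apply]
            omega
        _ ≤ 2 * m := Finset.card_image_le.trans (by simp)
        _ = 2 * m ^ 1 := by rw [pow_one]
    · calc _ ≤ ((Finset.range m).image (fun (s : ℕ) (_ : Unit) => s)).card := by
            apply Finset.card_le_card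
            intro d hd
            obtain ⟨x, hx, y, hy, rfl⟩ := mem_P.1 hd
            obtain ⟨a, ha, rfl⟩ := Finset.mem_image.1 hx
            obtain ⟨b, hb, rfl⟩ := Finset.mem_image.1 hy
            rw [Finset.mem_range] at ha hb
            refine Finset.mem_image.2 ⟨a - b, Finset.mem_range.2 (by omega), ?_⟩
            funext i
            simp only
            omega
        _ ≤ m := Finset.card_image_le.trans (by simp)
        _ ≤ 2 * m ^ (2 ^ 0) := by simp; omega
  | succ L ih =>
    obtain ⟨ι, hι, hne, K, t, ht, H⟩ := ih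
    refine ⟨ι ⊕ ι, inferInstance, inferInstance, 2 * K ^ 2 + 2 * K, 2 * t + 1, ?_, fun m => ?_⟩
    · rw [pow_succ]; omega
    obtain ⟨T, hT, hD, hP⟩ := H m
    obtain ⟨M, hM, hMb⟩ := exists_bound T
    set g : (ι → ℤ) × (ι → ℤ) × ℕ → (ι ⊕ ι → ℤ) := fun p =>
      Sum.elim (fun i => p.1 i + p.2.2 * M) (fun i => p.2.1 i - p.2.2 * M) with hg
    -- sizes of multiples of `M`
    have hmul : ∀ a b : ℕ, a < b → M ≤ ((b : ℤ) - a) * M := by
      intro a b hab
      have : (1 : ℤ) ≤ (b : ℤ) - a := by omega
      nlinarith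
    refine ⟨(T ×ˢ T ×ˢ Finset.range m).image g, ?_, ?_, ?_⟩
    · rw [Finset.card_image_of_injOn]
      · rw [Finset.card_product, Finset.card_product, Finset.card_range, hT]
        ring
      · rintro ⟨x, y, s⟩ hp ⟨x', y', s'⟩ hp' hgg
        simp only [Finset.coe_product, Set.mem_prod, Finset.mem_coe] at hp hp'
        obtain ⟨hx, hy, -⟩ := hp
        obtain ⟨hx', hy', -⟩ := hp'
        have e1 : ∀ i, x i + s * M = x' i + s' * M := fun i => by
          have := congrFun hgg (Sum.inl i)
          simpa [hg] using this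
        have e2 : ∀ i, y i - s * M = y' i - s' * M := fun i => by
          have := congrFun hgg (Sum.inr i)
          simpa [hg] using this
        have hs : s = s' := by
          obtain ⟨i⟩ := hne
          have h1 := e1 i
          have h2 := abs_lt.1 (hMb x hx x' hx' i)
          rcases lt_trichotomy s s' with h | h | h
          · have := hmul s s' h
            rw [sub_mul] at this
            linarith [h2.1, h2.2]
          · exact h
          · have := hmul s' s h
            rw [sub_mul] at this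
            linarith [h2.1, h2.2]
        subst hs
        have hxx : x = x' := funext fun i => by have := e1 i; linarith
        have hyy : y = y' := funext fun i => by have := e2 i; linarith
        rw [hxx, hyy]
    · calc _ ≤ ((D T ×ˢ D T ×ˢ Finset.range (2 * m)).image
            (fun p : (ι → ℤ) × (ι → ℤ) × ℕ => (Sum.elim (fun i => p.1 i + ((p.2.2 : ℤ) - m) * M)
              (fun i => p.2.1 i - ((p.2.2 : ℤ) - m) * M) : ι ⊕ ι → ℤ))).card := by
            apply Finset.card_le_card
            intro d hd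
            obtain ⟨u, hu, v, hv, rfl⟩ := mem_D.1 hd
            obtain ⟨⟨x, y, s⟩, hp1, rfl⟩ := Finset.mem_image.1 hu
            obtain ⟨⟨x', y', s'⟩, hp2, rfl⟩ := Finset.mem_image.1 hv
            simp only [Finset.mem_product, Finset.mem_range] at hp1 hp2
            obtain ⟨hx, hy, hs⟩ := hp1
            obtain ⟨hx', hy', hs'⟩ := hp2
            refine Finset.mem_image.2 ⟨(x - x', y - y', s + m - s'), ?_, ?_⟩
            · simp only [Finset.mem_product, Finset.mem_range]
              refine ⟨mem_D.2 ⟨x, hx, x', hx', rfl⟩, mem_D.2 ⟨y, hy, y', hy', rfl⟩, by omega⟩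
            · have hc : (((s + m - s' : ℕ) : ℤ) - m) = (s : ℤ) - s' := by omega
              funext i
              rcases i with i | i
              · simp only [hg, Sum.elim_inl, Pi.sub_apply, hc]; ring
              · simp only [hg, Sum.elim_inr, Pi.sub_apply, hc]; ring
        _ ≤ (D T).card * ((D T).card * (2 * m)) := by
            refine Finset.card_image_le.trans ?_
            rw [Finset.card_product, Finset.card_product, Finset.card_range]
        _ ≤ (K * m ^ t) * ((K * m ^ t) * (2 * m)) := by gcongr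
        _ = 2 * K ^ 2 * m ^ (2 * t + 1) := by ring
        _ ≤ _ := by gcongr; omega
    · calc _ ≤ (((D T ×ˢ Finset.range m).image
              (fun p : (ι → ℤ) × ℕ => (Sum.elim (fun i => (p.1 i + p.2 * M).toNat)
                (fun _ => 0) : ι ⊕ ι → ℕ))) ∪
            (((D T ×ˢ Finset.range m).image
              (fun p : (ι → ℤ) × ℕ => (Sum.elim (fun _ => 0)
                (fun i => (p.1 i + p.2 * M).toNat) : ι ⊕ ι → ℕ))) ∪
            ((P T ×ˢ P T).image
              (fun p : (ι → ℕ) × (ι → ℕ) => (Sum.elim p.1 p.2 : ι ⊕ ι → ℕ))))).card := by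
            apply Finset.card_le_card
            intro d hd
            obtain ⟨u, hu, v, hv, rfl⟩ := mem_P.1 hd
            obtain ⟨⟨x, y, s⟩, hp1, rfl⟩ := Finset.mem_image.1 hu
            obtain ⟨⟨x', y', s'⟩, hp2, rfl⟩ := Finset.mem_image.1 hv
            simp only [Finset.mem_product, Finset.mem_range] at hp1 hp2
            obtain ⟨hx, hy, hs⟩ := hp1
            obtain ⟨hx', hy', hs'⟩ := hp2
            rcases lt_trichotomy s' s with h | h | h
            · refine Finset.mem_union_left _ (Finset.mem_image.2 ⟨(x - x', s - s'), ?_, ?_⟩)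
              · simp only [Finset.mem_product, Finset.mem_range]
                exact ⟨mem_D.2 ⟨x, hx, x', hx', rfl⟩, by omega⟩
              · have hc : (((s - s' : ℕ) : ℤ)) = (s : ℤ) - s' := by omega
                have hm := hmul s' s h
                funext i
                rcases i with i | i
                · simp only [hg, Sum.elim_inl, Pi.sub_apply, hc]
                  congr 1; ring
                · have h2 := abs_lt.1 (hMb y hy y' hy' i)
                  simp only [hg, Sum.elim_inr]
                  symm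
                  rw [Int.toNat_eq_zero]
                  rw [sub_mul] at hm
                  linarith [h2.1, h2.2]
            · subst h
              refine Finset.mem_union_right _ (Finset.mem_union_right _ (Finset.mem_image.2
                ⟨(fun i => (x i - x' i).toNat, fun i => (y i - y' i).toNat), ?_, ?_⟩))
              · exact Finset.mem_product.2
                  ⟨mem_P.2 ⟨x, hx, x', hx', rfl⟩, mem_P.2 ⟨y, hy, y', hy', rfl⟩⟩
              · funext i
                rcases i with i | i
                · simp only [hg, Sum.elim_inl]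
                  congr 1; ring
                · simp only [hg, Sum.elim_inr]
                  congr 1; ring
            · refine Finset.mem_union_right _ (Finset.mem_union_left _
                (Finset.mem_image.2 ⟨(y - y', s' - s), ?_, ?_⟩))
              · simp only [Finset.mem_product, Finset.mem_range]
                exact ⟨mem_D.2 ⟨y, hy, y', hy', rfl⟩, by omega⟩
              · have hc : (((s' - s : ℕ) : ℤ)) = (s' : ℤ) - s := by omega
                have hm := hmul s s' h
                funext i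
                rcases i with i | i
                · have h2 := abs_lt.1 (hMb x hx x' hx' i)
                  simp only [hg, Sum.elim_inl]
                  symm
                  rw [Int.toNat_eq_zero]
                  rw [sub_mul] at hm
                  linarith [h2.1, h2.2]
                · simp only [hg, Sum.elim_inr, Pi.sub_apply, hc]
                  congr 1; ring
        _ ≤ (D T).card * m + ((D T).card * m + (P T).card * (P T).card) := by
            refine (Finset.card_union_le _ _).trans ?_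
            refine Nat.add_le_add ?_ ((Finset.card_union_le _ _).trans (Nat.add_le_add ?_ ?_))
            · exact Finset.card_image_le.trans (by rw [Finset.card_product, Finset.card_range])
            · exact Finset.card_image_le.trans (by rw [Finset.card_product, Finset.card_range])
            · exact Finset.card_image_le.trans (by rw [Finset.card_product])
        _ ≤ (K * m ^ t) * m + ((K * m ^ t) * m + (K * m ^ (2 ^ L)) * (K * m ^ (2 ^ L))) := by
            gcongr
        _ = 2 * K * m ^ (t + 1) + K ^ 2 * m ^ (2 * 2 ^ L) := by ring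
        _ = (2 * K + K ^ 2) * m ^ (2 ^ (L + 1)) := by
            rw [ht, pow_succ 2 L, mul_comm (2 ^ L) 2]; ring
        _ ≤ _ := Nat.mul_le_mul_right _ (by linarith [Nat.zero_le (K ^ 2)])

/-! ### From vectors to integers -/

/-- the primes used as bases -/
noncomputable def pr {ι : Type} [Fintype ι] (i : ι) : ℕ := Nat.nth Nat.Prime (Fintype.equivFin ι i)

lemma pr_prime {ι : Type} [Fintype ι] (i : ι) : (pr i).Prime :=
  Nat.nth_mem_of_infinite Nat.infinite_setOfPred_prime _

lemma pr_inj {ι : Type} [Fintype ι] {i j : ι} (h : pr i = pr j) : i = j := by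
  have := Nat.nth_injective Nat.infinite_setOfPred_prime h
  exact (Fintype.equivFin ι).injective (Fin.ext this)

/-- the integer with the given exponents -/
noncomputable def num {ι : Type} [Fintype ι] (x : ι → ℕ) : ℕ := ∏ i, pr i ^ x i

lemma num_pos {ι : Type} [Fintype ι] (x : ι → ℕ) : 0 < num x :=
  Finset.prod_pos fun i _ => pow_pos (pr_prime i).pos _

lemma num_add {ι : Type} [Fintype ι] (x y : ι → ℕ) : num (x + y) = num x * num y := by
  simp [num, pow_add, Finset.prod_mul_distrib]

lemma num_coprime {ι : Type} [Fintype ι] (x y : ι → ℕ) (hxy : ∀ i, x i = 0 ∨ y i = 0) :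
    Nat.Coprime (num x) (num y) := by
  unfold num
  refine Nat.Coprime.prod_left fun i _ => Nat.Coprime.prod_right fun j _ => ?_
  by_cases hij : i = j
  · subst hij
    rcases hxy i with h | h <;> simp [h]
  · exact Nat.Coprime.pow _ _ ((Nat.coprime_primes (pr_prime i) (pr_prime j)).2
      fun h => hij (pr_inj h))

lemma num_div {ι : Type} [Fintype ι] (x y : ι → ℕ) :
    num y / Nat.gcd (num x) (num y) = num (fun i => y i - x i) := by
  have e1 : num x = num (fun i => min (x i) (y i)) * num (fun i => x i - y i) := by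
    rw [← num_add]; congr 1; funext i; simp only [Pi.add_apply]; omega
  have e2 : num y = num (fun i => min (x i) (y i)) * num (fun i => y i - x i) := by
    rw [← num_add]; congr 1; funext i; simp only [Pi.add_apply]; omega
  have hc : Nat.gcd (num fun i => x i - y i) (num fun i => y i - x i) = 1 :=
    num_coprime _ _ fun i => by omega
  have e3 : Nat.gcd (num x) (num y) = num (fun i => min (x i) (y i)) := by
    rw [e1, e2, Nat.gcd_mul_left, hc, mul_one]
  rw [e3]
  conv_lhs => rw [e2]
  exact Nat.mul_div_cancel_left _ (num_pos _)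

lemma num_inj {ι : Type} [Fintype ι] : Function.Injective (num (ι := ι)) := by
  intro x y hxy
  have h1 := num_div x y
  rw [hxy, Nat.gcd_self, Nat.div_self (num_pos _)] at h1
  have h2 := num_div y x
  rw [hxy, Nat.gcd_self, Nat.div_self (num_pos _)] at h2
  have key : ∀ z : ι → ℕ, 1 = num z → ∀ i, z i = 0 := by
    intro z hz i
    by_contra hi
    have : pr i ∣ num z :=
      (dvd_pow_self _ hi).trans (Finset.dvd_prod_of_mem (fun i => pr i ^ z i) (Finset.mem_univ i))
    rw [← hz] at this
    exact (pr_prime i).one_lt.ne' (Nat.dvd_one.1 this)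
  funext i
  have a := key _ h1 i
  have b := key _ h2 i
  omega

lemma exists_ints {ι : Type} [Fintype ι] (T : Finset (ι → ℤ)) :
    ∃ A : Finset ℕ, (∀ a ∈ A, 0 < a) ∧ A.card = T.card ∧ (ratios A).card ≤ (P T).card := by
  classical
  obtain ⟨N, hN⟩ : ∃ N : ℤ, ∀ x ∈ T, ∀ i, 0 ≤ x i + N := by
    refine ⟨∑ x ∈ T, ∑ i, |x i|, fun x hx i => ?_⟩
    have h1 : |x i| ≤ ∑ i, |x i| :=
      Finset.single_le_sum (f := fun i => |x i|) (fun _ _ => abs_nonneg _) (Finset.mem_univ i)
    have h2 : ∑ i, |x i| ≤ ∑ x ∈ T, ∑ i, |x i| :=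
      Finset.single_le_sum (f := fun x : ι → ℤ => ∑ i, |x i|)
        (fun _ _ => Finset.sum_nonneg fun _ _ => abs_nonneg _) hx
    have h3 := neg_abs_le (x i)
    linarith
  refine ⟨T.image fun x => num fun i => (x i + N).toNat, ?_, ?_, ?_⟩
  · intro a ha
    obtain ⟨x, -, rfl⟩ := Finset.mem_image.1 ha
    exact num_pos _
  · apply Finset.card_image_of_injOn
    intro x hx y hy hxy
    have := num_inj hxy
    funext i
    have h1 := congrFun this i
    have h2 := hN x hx i
    have h3 := hN y hy i
    omega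
  · calc _ ≤ ((P T).image num).card := by
          apply Finset.card_le_card
          intro r hr
          obtain ⟨⟨a, b⟩, hp, rfl⟩ := Finset.mem_image.1 hr
          obtain ⟨ha, hb⟩ := Finset.mem_product.1 hp
          obtain ⟨x, hx, rfl⟩ := Finset.mem_image.1 ha
          obtain ⟨y, hy, rfl⟩ := Finset.mem_image.1 hb
          refine Finset.mem_image.2 ⟨fun i => (y i - x i).toNat,
            mem_P.2 ⟨y, hy, x, hx, rfl⟩, ?_⟩
          simp only
          rw [num_div]
          congr 1
          funext i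
          have h2 := hN x hx i
          have h3 := hN y hy i
          omega
      _ ≤ (P T).card := Finset.card_image_le

/-! ### The bounds for `h` -/

lemma upper_L (L : ℕ) : ∃ (K t : ℕ), t + 1 = 2 * 2 ^ L ∧
    ∀ m n : ℕ, n ≤ m ^ t → h n ≤ K * m ^ (2 ^ L) := by
  obtain ⟨ι, hι, -, K, t, ht, H⟩ := core L
  refine ⟨K, t, ht, fun m n hn => ?_⟩
  obtain ⟨T, hT, -, hP⟩ := H m
  obtain ⟨A, hA, hA2, hA3⟩ := exists_ints T
  exact (h_le hA (by rw [hA2, hT]; exact hn)).trans (hA3.trans hP)

lemma upper (ε : ℝ) (hε : 0 < ε) : ∃ C : ℝ, 0 < C ∧ ∀ n : ℕ, 1 ≤ n →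
    (h n : ℝ) ≤ C * (n : ℝ) ^ (1 / 2 + ε) := by
  obtain ⟨L, hL⟩ := exists_nat_gt (1 / ε)
  obtain ⟨K, t, ht, H⟩ := upper_L L
  have hLpow : (L : ℝ) < 2 ^ L := by exact_mod_cast Nat.lt_two_pow_self
  have htr : (t : ℝ) + 1 = 2 * 2 ^ L := by exact_mod_cast ht
  have hL1 : (1 : ℝ) ≤ 2 ^ L := one_le_pow₀ (by norm_num)
  have ht1 : (1 : ℝ) ≤ t := by linarith
  have ht0 : (0 : ℝ) < t := by linarith
  have hexp : (2 : ℝ) ^ L / t ≤ 1 / 2 + ε := by
    rw [div_le_iff₀ ht0]
    have h1 : 1 < ε * 2 ^ L := by
      have : 1 / ε < 2 ^ L := hL.trans hLpow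
      rw [div_lt_iff₀ hε] at this
      linarith
    have h2 : (t : ℝ) ≥ 2 ^ L := by linarith
    have h3 : ε * t ≥ ε * 2 ^ L := mul_le_mul_of_nonneg_left h2 hε.le
    nlinarith
  refine ⟨(K + 1) * 2 ^ (2 ^ L), by positivity, fun n hn => ?_⟩
  have hn1 : (1 : ℝ) ≤ n := by exact_mod_cast hn
  set r : ℝ := (n : ℝ) ^ (1 / (t : ℝ)) with hr
  have hr1 : 1 ≤ r := Real.one_le_rpow hn1 (by positivity)
  set m := ⌈r⌉₊ with hm
  have hmr : r ≤ m := Nat.le_ceil r
  have hmr2 : (m : ℝ) ≤ 2 * r := by
    have := (Nat.ceil_lt_add_one (by linarith : 0 ≤ r)).le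
    rw [← hm] at this
    linarith
  have hrt : r ^ t = n := by
    rw [hr, ← Real.rpow_natCast, ← Real.rpow_mul (by linarith), one_div,
      inv_mul_cancel₀ ht0.ne', Real.rpow_one]
  have hnm : n ≤ m ^ t := by
    have : (n : ℝ) ≤ (m : ℝ) ^ t := by
      rw [← hrt]
      exact pow_le_pow_left₀ (by linarith) hmr t
    exact_mod_cast this
  have h1 := H m n hnm
  have h2 : (h n : ℝ) ≤ K * (m : ℝ) ^ (2 ^ L) := by exact_mod_cast h1
  calc (h n : ℝ) ≤ K * (m : ℝ) ^ (2 ^ L) := h2
    _ ≤ (K + 1) * (2 * r) ^ (2 ^ L) := by gcongr; linarith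
    _ = (K + 1) * 2 ^ (2 ^ L) * r ^ (2 ^ L) := by rw [mul_pow]; ring
    _ ≤ (K + 1) * 2 ^ (2 ^ L) * (n : ℝ) ^ (1 / 2 + ε) := by
        have : r ^ (2 ^ L) = (n : ℝ) ^ ((2 : ℝ) ^ L / t) := by
          rw [hr, ← Real.rpow_natCast, ← Real.rpow_mul (by linarith)]
          congr 1
          push_cast
          ring
        rw [this]
        gcongr

theorem tends : Tendsto (fun n : ℕ => Real.log (h n) / Real.log n) atTop (𝓝 (1 / 2)) := by
  rw [Metric.tendsto_atTop]
  intro ε hε
  obtain ⟨C, hC, hup⟩ := upper (ε / 2) (by positivity)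
  have hlog : Tendsto (fun n : ℕ => Real.log n) atTop atTop :=
    Real.tendsto_log_atTop.comp tendsto_natCast_atTop_atTop
  obtain ⟨N, hN⟩ := (hlog.eventually (eventually_gt_atTop (max 0 (2 * Real.log C / ε)))).exists_forall_of_atTop
  refine ⟨max N 2, fun n hn => ?_⟩
  have hnN : N ≤ n := (le_max_left _ _).trans hn
  have hn2 : 2 ≤ n := (le_max_right _ _).trans hn
  have hl := hN n hnN
  have hl0 : 0 < Real.log n := (le_max_left _ _).trans_lt hl
  have hl1 : 2 * Real.log C / ε < Real.log n := (le_max_right _ _).trans_lt hl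
  have hn0 : (0 : ℝ) < n := by exact_mod_cast (by omega : 0 < n)
  have hlow : (n : ℝ) ≤ (h n : ℝ) ^ 2 := by exact_mod_cast le_h_sq n
  have hh0 : (0 : ℝ) < h n := by
    rcases Nat.eq_zero_or_pos (h n) with h0 | h0
    · rw [h0] at hlow
      simp only [Nat.cast_zero, ne_eq, OfNat.ofNat_ne_zero, not_false_eq_true, zero_pow] at hlow
      linarith
    · exact_mod_cast h0
  have h1 : Real.log n ≤ 2 * Real.log (h n) := by
    have := Real.log_le_log hn0 hlow
    rwa [Real.log_pow, Nat.cast_ofNat] at this
  have h2 : Real.log (h n) ≤ Real.log C + (1 / 2 + ε / 2) * Real.log n := by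
    have := Real.log_le_log hh0 (hup n (by omega))
    rwa [Real.log_mul hC.ne' (Real.rpow_pos_of_pos hn0 _).ne', Real.log_rpow hn0] at this
  have h3 : Real.log C < ε / 2 * Real.log n := by
    rw [div_lt_iff₀ hε] at hl1
    linarith
  rw [Real.dist_eq, abs_lt]
  constructor
  · have : 1 / 2 ≤ Real.log (h n) / Real.log n := by
      rw [le_div_iff₀ hl0]; linarith
    linarith
  · have : Real.log (h n) / Real.log n < 1 / 2 + ε := by
      rw [div_lt_iff₀ hl0]; nlinarith
    linarith

/-- The exponent of `h(n)` is `1 / 2`: `log h(n) / log n → 1 / 2`; moreover `h(n) ≥ √n` for all `n`,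
and `h(n) ≤ C n ^ (1 / 2 + ε)` for all `n ≥ 1`. -/
theorem result :
    Tendsto (fun n : ℕ => Real.log (h n) / Real.log n) atTop (𝓝 (1 / 2)) ∧
      (∀ n : ℕ, n ≤ h n ^ 2) ∧
      ∀ ε : ℝ, 0 < ε → ∃ C : ℝ, ∀ n : ℕ, 1 ≤ n → (h n : ℝ) ≤ C * (n : ℝ) ^ (1 / 2 + ε) :=
  ⟨tends, le_h_sq, fun ε hε => let ⟨C, _, hC⟩ := upper ε hε; ⟨C, hC⟩⟩

end Pool.Agent.Results.MP_f9e5d9_nt.RatioExponent
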